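import Pool.Agent.H37.CNK.Stmts

/-!
# Board cnk, row DKK
-/

set_option autoImplicit false

namespace Pool.CND

open Polynomial

namespace DKK

variable {k L : Type} [Field k] [Field L] [Algebra k L]

theorem ge_aeval (P : Place k L) (t : L) (e : ℕ) (ht0 : t ≠ 0) (ht : P.ord t = -(e : ℤ))
    (f : k[X]) (D : ℕ) (hD : f.natDegree < D + 1) : P.Ge (aeval t f) (-((e : ℤ) * D)) := by
  rw [aeval_eq_sum_range' hD]
  apply P.ge_sum
  intro i hi
  rw [Finset.mem_range] at hi
  rw [Algebra.smul_def]
  by_cases hc : f.coeff i = 0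
  · rw [hc, map_zero, zero_mul]
    exact P.ge_zero _
  · right
    rw [P.ord_mul _ _ (by simpa using hc) (pow_ne_zero _ ht0), P.ord_const _ hc, P.ord_pow ht0,
      ht, zero_add]
    have h1 : (i : ℤ) ≤ D := by exact_mod_cast Nat.lt_succ_iff.1 hi
    nlinarith [Int.natCast_nonneg e]

theorem ord_aeval (P : Place k L) (t : L) (e : ℕ) (he : 1 ≤ e) (ht0 : t ≠ 0)
    (ht : P.ord t = -(e : ℤ)) (f : k[X]) (hf : f ≠ 0) :
    aeval t f ≠ 0 ∧ P.ord (aeval t f) = -((e : ℤ) * f.natDegree) := by
  have h1 : aeval t f = algebraMap k L f.leadingCoeff * t ^ f.natDegree +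
      aeval t f.eraseLead := by
    conv_lhs => rw [← eraseLead_add_C_mul_X_pow f]
    rw [map_add, map_mul, aeval_C, map_pow, aeval_X, add_comm]
  have hl : f.leadingCoeff ≠ 0 := leadingCoeff_ne_zero.2 hf
  have hl' : algebraMap k L f.leadingCoeff ≠ 0 := by simpa using hl
  have h2 : algebraMap k L f.leadingCoeff * t ^ f.natDegree ≠ 0 :=
    mul_ne_zero hl' (pow_ne_zero _ ht0)
  have h3 : P.ord (algebraMap k L f.leadingCoeff * t ^ f.natDegree) =
      -((e : ℤ) * f.natDegree) := by
    rw [P.ord_mul _ _ hl' (pow_ne_zero _ ht0), P.ord_const _ hl, P.ord_pow ht0, ht]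
    ring
  have h4 : P.Ge (aeval t f.eraseLead)
      (P.ord (algebraMap k L f.leadingCoeff * t ^ f.natDegree) + 1) := by
    rw [h3]
    rcases Nat.eq_zero_or_pos f.natDegree with hn | hn
    · have h5 : f.eraseLead = 0 := by
        rw [eq_C_of_natDegree_eq_zero hn, eraseLead_C]
      rw [h5, map_zero]
      exact P.ge_zero _
    · refine P.ge_mono (ge_aeval P t e ht0 ht f.eraseLead (f.natDegree - 1) ?_) ?_
      · have h5 := eraseLead_natDegree_le f
        omega
      · have h5 : ((f.natDegree - 1 : ℕ) : ℤ) = f.natDegree - 1 := by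
          rw [Nat.cast_sub hn, Nat.cast_one]
        rw [h5]
        have h6 : (1 : ℤ) ≤ e := by exact_mod_cast he
        nlinarith
  have h5 := P.ord_add_of_lt h2 h4
  rw [← h1, h3] at h5
  exact h5

theorem coeff_Xder (f : k[X]) (n : ℕ) : (X * derivative f).coeff n = n * f.coeff n := by
  cases n with
  | zero => simp
  | succ n =>
    rw [coeff_X_mul, coeff_derivative]
    push_cast
    ring

theorem natDegree_Xder (f : k[X]) : (X * derivative f).natDegree ≤ f.natDegree := by
  rw [natDegree_le_iff_coeff_eq_zero]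
  intro n hn
  rw [coeff_Xder, coeff_eq_zero_of_natDegree_lt hn, mul_zero]

/-- `Δ` as a derivation -/
def der {t : L} {Δ : L → L} (h : DD k t Δ) : Derivation k L L :=
  Derivation.mk'
    { toFun := Δ
      map_add' := h.add
      map_smul' := fun c x => by
        rw [Algebra.smul_def, h.mul, h.con, mul_zero, add_zero, RingHom.id_apply,
          Algebra.smul_def] }
    (fun a b => h.mul a b)

theorem der_apply {t : L} {Δ : L → L} (h : DD k t Δ) (x : L) : der h x = Δ x := rfl

theorem der_aeval {t : L} {Δ : L → L} (h : DD k t Δ) (f : k[X]) :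
    Δ (aeval t f) = t * aeval t (derivative f) := by
  have h1 := (der h).map_aeval f t
  rw [der_apply, der_apply, h.self, smul_eq_mul, mul_comm] at h1
  exact h1

end DKK

open DKK in
/-- Row DKK. -/
theorem dkk_thm : S_DKK := by
  intro p e k L _ _ _ P t Δ hp hch he ht hΔ x hx hx0
  by_cases ht0 : t = 0
  · rw [ht0, IntermediateField.adjoin_zero, IntermediateField.mem_bot] at hx
    obtain ⟨c, rfl⟩ := hx
    have hc : c ≠ 0 := fun h => hx0 (by rw [h, map_zero])
    refine ⟨0, by rw [P.ord_const c hc, mul_zero], Or.inl (hΔ.con c), fun h => ?_⟩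
    exact absurd (dvd_zero _) h
  obtain ⟨f, g, rfl⟩ := (IntermediateField.mem_adjoin_simple_iff k x).1 hx
  have hf : f ≠ 0 := by
    rintro rfl
    exact hx0 (by simp)
  have hg : g ≠ 0 := by
    rintro rfl
    exact hx0 (by simp)
  obtain ⟨hf1, hf2⟩ := ord_aeval P t e he ht0 ht f hf
  obtain ⟨hg1, hg2⟩ := ord_aeval P t e he ht0 ht g hg
  have hox : P.ord (aeval t f / aeval t g) = (e : ℤ) * ((g.natDegree : ℤ) - f.natDegree) := by
    rw [P.ord_div hf1 hg1, hf2, hg2]
    ring
  set N : k[X] := X * (g * derivative f - f * derivative g) with hN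
  have h1 : aeval t g ^ 2 * Δ (aeval t f / aeval t g) = aeval t N := by
    have h2 : Δ (aeval t f) = Δ (aeval t f / aeval t g * aeval t g) := by
      rw [div_mul_cancel₀ _ hg1]
    rw [hΔ.mul, der_aeval hΔ, der_aeval hΔ] at h2
    have h3 : aeval t g * (aeval t f / aeval t g) = aeval t f := by
      rw [mul_comm, div_mul_cancel₀ _ hg1]
    have h4 : aeval t g ^ 2 * Δ (aeval t f / aeval t g) =
        aeval t g * (t * aeval t (derivative f)) -
          (aeval t g * (aeval t f / aeval t g)) * (t * aeval t (derivative g)) := by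
      rw [h2]
      ring
    rw [h4, h3, hN, map_mul, map_sub, map_mul, map_mul, aeval_X]
    ring
  have hN' : N = X * derivative f * g - f * (X * derivative g) := by
    rw [hN]
    ring
  have hNd : N.natDegree ≤ f.natDegree + g.natDegree := by
    rw [hN']
    refine (natDegree_sub_le_of_le (natDegree_mul_le_of_le (natDegree_Xder f) le_rfl)
      (natDegree_mul_le_of_le le_rfl (natDegree_Xder g))).trans ?_
    rw [max_self]
  have hNc : N.coeff (f.natDegree + g.natDegree) =
      ((f.natDegree : k) - g.natDegree) * (f.leadingCoeff * g.leadingCoeff) := by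
    rw [hN', coeff_sub, coeff_mul_add_eq_of_natDegree_le (natDegree_Xder f) le_rfl,
      coeff_mul_add_eq_of_natDegree_le le_rfl (natDegree_Xder g), coeff_Xder, coeff_Xder,
      coeff_natDegree, coeff_natDegree]
    ring
  have key : ∀ d : ℕ, N ≠ 0 → N.natDegree = d → P.ord (Δ (aeval t f / aeval t g)) =
      (e : ℤ) * (2 * g.natDegree - d) ∧ Δ (aeval t f / aeval t g) ≠ 0 := by
    intro d hN0 hd
    obtain ⟨hN1, hN2⟩ := ord_aeval P t e he ht0 ht N hN0
    have h2 : Δ (aeval t f / aeval t g) ≠ 0 := by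
      intro h3
      rw [h3, mul_zero] at h1
      exact hN1 h1.symm
    refine ⟨?_, h2⟩
    rw [← h1, P.ord_mul _ _ (pow_ne_zero _ hg1) h2, P.ord_pow hg1, hg2, hd] at hN2
    push_cast at hN2
    linear_combination hN2
  refine ⟨(g.natDegree : ℤ) - f.natDegree, hox, ?_, ?_⟩
  · by_cases hN0 : N = 0
    · left
      rw [hN0, map_zero] at h1
      rcases mul_eq_zero.1 h1 with h2 | h2
      · exact absurd h2 (pow_ne_zero _ hg1)
      · exact h2
    · right
      rw [hox, (key _ hN0 rfl).1]
      have h2 : (N.natDegree : ℤ) ≤ f.natDegree + g.natDegree := by exact_mod_cast hNd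
      nlinarith [Int.natCast_nonneg e]
  · intro hm
    have h2 : N.coeff (f.natDegree + g.natDegree) ≠ 0 := by
      rw [hNc]
      refine mul_ne_zero ?_ (mul_ne_zero (leadingCoeff_ne_zero.2 hf) (leadingCoeff_ne_zero.2 hg))
      intro h3
      apply hm
      have h4 : (((f.natDegree : ℤ) - g.natDegree : ℤ) : k) = 0 := by
        push_cast
        exact h3
      rw [CharP.intCast_eq_zero_iff k p] at h4
      rw [← dvd_neg, neg_sub]
      exact h4
    have hN0 : N ≠ 0 := by
      intro h3
      rw [h3, coeff_zero] at h2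
      exact h2 rfl
    have h3 : N.natDegree = f.natDegree + g.natDegree :=
      le_antisymm hNd (le_natDegree_of_ne_zero h2)
    obtain ⟨h4, h5⟩ := key _ hN0 h3
    refine ⟨h5, ?_⟩
    rw [h4, hox]
    push_cast
    ring

end Pool.CND
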